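import Pool.Agent.X170.PC.Stm

/-!
# Project PC: the numeric recursions up to `n = 752`
-/

set_option autoImplicit false

namespace Pool.Agent.X261.PC

open Finset

/-- inner product of two lists -/
def conv : List ℕ → List ℕ → ℕ
  | [], _ => 0
  | _ :: _, [] => 0
  | a :: as, b :: bs => a * b + conv as bs

/-- evaluate `x` before going on -/
def force (x : ℕ) (k : ℕ → List ℕ) : List ℕ :=
  match x with
  | 0 => k 0
  | n + 1 => k (n + 1)

lemma force_eq (x : ℕ) (k : ℕ → List ℕ) : force x k = k x := by
  cases x <;> rfl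

/-- `n` more values of the sequence `x_(m+1) = ∑ cs_k x_(m-k)`; lists are reversed -/
def loop (cs : List ℕ) : ℕ → List ℕ → List ℕ
  | 0, l => l
  | n + 1, l => force (conv cs l) fun x => loop cs n (x :: l)

/-- the upper bounds for `c`, reversed: `n` steps from index `k` -/
def cloop : ℕ → ℕ → List ℕ → List ℕ
  | 0, _, l => l
  | n + 1, k, l => force (2 * l.getD 2 0 + 2 * k - 7) fun x => cloop n (k + 1) (x :: l)

/-- the upper bounds `c_1, ..., c_752` -/
def CL : List ℕ := (cloop 749 4 [2, 1, 1]).reverse

lemma conv_eq (m : ℕ) : ∀ as bs : List ℕ, bs.length ≤ m →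
    conv as bs = ∑ k ∈ range m, as.getD k 0 * bs.getD k 0 := by
  induction m with
  | zero =>
    intro as bs h
    have : bs = [] := List.length_eq_zero_iff.1 (by omega)
    subst this
    cases as <;> simp [conv]
  | succ m ih =>
    intro as bs h
    cases as with
    | nil => simp [conv]
    | cons a as =>
      cases bs with
      | nil => simp [conv]
      | cons b bs =>
        rw [Finset.sum_range_succ']
        simp only [conv, List.getD_cons_succ, List.getD_cons_zero]
        rw [ih as bs (by simpa using h)]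
        ring

lemma loop_upper (cs : List ℕ) (b c : ℕ → ℕ) (M : ℕ)
    (hb : ∀ n, 1 ≤ n → b n ≤ ∑ k ∈ range n, c (k + 1) * b (n - (k + 1)))
    (hc : ∀ k < M, c (k + 1) ≤ cs.getD k 0) : ∀ (n m : ℕ) (l : List ℕ), m + n ≤ M →
    l.length = m + 1 → (∀ i ≤ m, b (m - i) ≤ l.getD i 0) →
    ∀ i ≤ m + n, b (m + n - i) ≤ (loop cs n l).getD i 0 := by
  intro n
  induction n with
  | zero => intro m l _ _ h; simpa [loop] using h
  | succ n ih =>
    intro m l hM hl h
    rw [loop, force_eq]
    have h1 := ih (m + 1) (conv cs l :: l) (by omega) (by simp [hl]) (by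
      intro i hi
      rcases i with _ | i
      · rw [List.getD_cons_zero, Nat.sub_zero, conv_eq (m + 1) cs l (by omega)]
        refine (hb (m + 1) (by omega)).trans (Finset.sum_le_sum fun k hk => ?_)
        have hk' := Finset.mem_range.1 hk
        have h2 := h k (by omega)
        have h3 : m + 1 - (k + 1) = m - k := by omega
        rw [h3]
        exact Nat.mul_le_mul (hc k (by omega)) h2
      · rw [List.getD_cons_succ]
        have h3 : m + 1 - (i + 1) = m - i := by omega
        rw [h3]
        exact h i (by omega))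
    have h4 : m + (n + 1) = m + 1 + n := by omega
    rw [h4]
    exact h1

lemma loop_lower (cs : List ℕ) (a d : ℕ → ℕ)
    (ha : ∀ n, ∑ k ∈ range n, d (k + 1) * a (n - (k + 1)) ≤ a n)
    (hd : ∀ k, cs.getD k 0 ≤ d (k + 1)) : ∀ (n m : ℕ) (l : List ℕ),
    l.length = m + 1 → (∀ i ≤ m, l.getD i 0 ≤ a (m - i)) →
    ∀ i ≤ m + n, (loop cs n l).getD i 0 ≤ a (m + n - i) := by
  intro n
  induction n with
  | zero => intro m l _ h; simpa [loop] using h
  | succ n ih =>
    intro m l hl h
    rw [loop, force_eq]
    have h1 := ih (m + 1) (conv cs l :: l) (by simp [hl]) (by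
      intro i hi
      rcases i with _ | i
      · rw [List.getD_cons_zero, Nat.sub_zero, conv_eq (m + 1) cs l (by omega)]
        refine le_trans (Finset.sum_le_sum fun k hk => ?_) (ha (m + 1))
        have hk' := Finset.mem_range.1 hk
        have h2 := h k (by omega)
        have h3 : m + 1 - (k + 1) = m - k := by omega
        rw [h3]
        exact Nat.mul_le_mul (hd k) h2
      · rw [List.getD_cons_succ]
        have h3 : m + 1 - (i + 1) = m - i := by omega
        rw [h3]
        exact h i (by omega))
    have h4 : m + (n + 1) = m + 1 + n := by omega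
    rw [h4]
    exact h1

lemma cloop_length : ∀ (n k : ℕ) (l : List ℕ), (cloop n k l).length = n + l.length := by
  intro n
  induction n with
  | zero => intro k l; simp [cloop]
  | succ n ih =>
    intro k l
    rw [cloop, force_eq, ih]
    simp
    omega

lemma cloop_upper (c : ℕ → ℕ) (hc : ∀ k : ℕ, 4 ≤ k → c k + 7 ≤ 2 * c (k - 3) + 2 * k) :
    ∀ (n k : ℕ) (l : List ℕ), 4 ≤ k → l.length = k - 1 →
    (∀ i < k - 1, c (k - 1 - i) ≤ l.getD i 0) →
    ∀ i < k - 1 + n, c (k - 1 + n - i) ≤ (cloop n k l).getD i 0 := by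
  intro n
  induction n with
  | zero => intro k l _ _ h; simpa [cloop] using h
  | succ n ih =>
    intro k l hk hl h
    rw [cloop, force_eq]
    have h1 := ih (k + 1) ((2 * l.getD 2 0 + 2 * k - 7) :: l) (by omega)
      (by simp [hl]; omega) (by
      intro i hi
      rcases i with _ | i
      · rw [List.getD_cons_zero]
        have h2 := hc k hk
        have h3 := h 2 (by omega)
        have h4 : k - 1 - 2 = k - 3 := by omega
        rw [h4] at h3
        have h5 : k + 1 - 1 - 0 = k := by omega
        rw [h5]
        omega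
      · rw [List.getD_cons_succ]
        have h5 : k + 1 - 1 - (i + 1) = k - 1 - i := by omega
        rw [h5]
        exact h i (by omega))
    intro i hi
    have h6 := h1 i (by omega)
    have h7 : k + 1 - 1 + n - i = k - 1 + (n + 1) - i := by omega
    rw [h7] at h6
    exact h6

lemma CL_upper (c : ℕ → ℕ) (h1 : c 1 ≤ 1) (h2 : c 2 ≤ 1) (h3 : c 3 ≤ 2)
    (hc : ∀ k : ℕ, 4 ≤ k → c k + 7 ≤ 2 * c (k - 3) + 2 * k) :
    ∀ k < 752, c (k + 1) ≤ CL.getD k 0 := by
  intro k hk
  have h4 := cloop_upper c hc 749 4 [2, 1, 1] le_rfl rfl (by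
    intro i hi
    have : i = 0 ∨ i = 1 ∨ i = 2 := by omega
    rcases this with rfl | rfl | rfl
    · exact h3
    · exact h2
    · exact h1) (751 - k) (by omega)
  have h5 : 4 - 1 + 749 - (751 - k) = k + 1 := by omega
  rw [h5] at h4
  refine h4.trans (le_of_eq ?_)
  unfold CL
  have hlen : (cloop 749 4 [2, 1, 1]).length = 752 := by rw [cloop_length]; rfl
  rw [List.getD_eq_getElem?_getD, List.getD_eq_getElem?_getD, List.getElem?_reverse (by omega),
    hlen]

theorem num_check : (loop CL 752 [1]).getD 0 0 < (loop Pool.Agent.X170.PC.iv 752 [1]).getD 0 0 := by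
  decide +kernel

theorem t_NUM : Pool.Agent.X170.PC.S_NUM := by
  intro a b c d ha0 hb0 hb hc ha hd
  obtain ⟨c1, c2, c3, c4⟩ := hc
  have h1 := loop_upper CL b c 752 hb (CL_upper c c1 c2 c3 c4) 752 0 [1] (by omega) rfl (by
    intro i hi
    have : i = 0 := by omega
    subst this
    simp [hb0]) 0 (by omega)
  have h2 := loop_lower Pool.Agent.X170.PC.iv a d ha (by
    intro k
    by_cases hk : k < 16
    · exact hd k hk
    · rw [List.getD_eq_default _ _ (by
        have : Pool.Agent.X170.PC.iv.length = 16 := rfl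
        omega)]
      exact Nat.zero_le _) 752 0 [1] rfl (by
    intro i hi
    have : i = 0 := by omega
    subst this
    simp [ha0]) 0 (by omega)
  have h3 := num_check
  simp only [Nat.zero_add, Nat.sub_zero] at h1 h2
  omega

end Pool.Agent.X261.PC
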